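import Pool.Agent.V5helper50.RS.Stm

set_option autoImplicit false

open Finset MeasureTheory ProbabilityTheory

namespace Pool.Agent.V5helper4.RS

open Pool.Agent.V5helper50.RS

lemma bern (x h : ℕ) : ∀ k : ℕ, x ^ (k + 1) + (k + 1) * h * x ^ k ≤ (x + h) ^ (k + 1) := by
  intro k
  induction k with
  | zero => simp
  | succ k ih =>
    calc x ^ (k + 1 + 1) + (k + 1 + 1) * h * x ^ (k + 1)
        ≤ x ^ (k + 1 + 1) + (k + 1 + 1) * h * x ^ (k + 1) + (k + 1) * h * x ^ k * h :=
          Nat.le_add_right _ _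
      _ = (x ^ (k + 1) + (k + 1) * h * x ^ k) * (x + h) := by ring
      _ ≤ (x + h) ^ (k + 1) * (x + h) := Nat.mul_le_mul_right _ ih
      _ = (x + h) ^ (k + 1 + 1) := by ring

theorem t_INT : S_INT := by
  classical
  intro k Q j i Y n r hk hQ hj hi
  set S := (range n).filter (fun x => 1 ≤ x ∧ i * x ^ k ≤ Y ∧ Y < i * x ^ k + j * Q * Tk k x ∧
    x % Q = r) with hS
  rcases S.eq_empty_or_nonempty with h0 | h0
  · rw [h0]
    simp
  obtain ⟨x₀, hx₀, hmax⟩ := S.exists_max_image id h0
  simp only [id] at hmax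
  have hk1 : k = (k - 1) + 1 := by omega
  have key : ∀ x ∈ S, x₀ - x < 4 * j * Q := by
    intro x hx
    by_contra hc
    push Not at hc
    rw [hS, mem_filter] at hx hx₀
    obtain ⟨_, hx1, hx2, hx3, hx4⟩ := hx
    obtain ⟨_, hy1, hy2, hy3, hy4⟩ := hx₀
    have hT : Tk k x = 4 * k * x ^ (k - 1) := by
      unfold Tk
      apply max_eq_right
      have : 0 < x ^ (k - 1) := by positivity
      nlinarith
    rw [hT] at hx3
    have h1 : x + (x₀ - x) = x₀ := by
      have : 0 < 4 * j * Q := by positivity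
      omega
    have h2 := bern x (x₀ - x) (k - 1)
    rw [h1, ← hk1] at h2
    have h3 : k * (4 * j * Q) * x ^ (k - 1) ≤ k * (x₀ - x) * x ^ (k - 1) :=
      Nat.mul_le_mul_right _ (Nat.mul_le_mul_left _ hc)
    have h4 : x ^ k + k * (4 * j * Q) * x ^ (k - 1) ≤ x₀ ^ k := by omega
    have h5 : i * (x ^ k + k * (4 * j * Q) * x ^ (k - 1)) ≤ i * x₀ ^ k := Nat.mul_le_mul_left _ h4
    have h6 : k * (4 * j * Q) * x ^ (k - 1) ≤ i * (k * (4 * j * Q) * x ^ (k - 1)) :=
      Nat.le_mul_of_pos_left _ (by omega)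
    have h7 : j * Q * (4 * k * x ^ (k - 1)) = k * (4 * j * Q) * x ^ (k - 1) := by ring
    rw [mul_add] at h5
    omega
  have hcard : S.card ≤ (range (4 * j)).card := by
    refine card_le_card_of_injOn (fun x => (x₀ - x) / Q) ?_ ?_
    · intro x hx
      simp only [coe_range, Set.mem_Iio]
      rw [Nat.div_lt_iff_lt_mul (by omega)]
      exact key x hx
    · intro x hx y hy hxy
      have hxm := hmax x hx
      have hym := hmax y hy
      simp only [S, coe_filter, mem_range, Set.mem_setOf_eq] at hx hy hx₀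
      simp only at hxy
      have hr0 : x₀ % Q = r := by
        rw [mem_filter] at hx₀
        exact hx₀.2.2.2.2
      have hxr : x % Q = r := hx.2.2.2.2
      have hyr : y % Q = r := hy.2.2.2.2
      have e1 : (x₀ - x) % Q = 0 := by
        apply Nat.sub_mod_eq_zero_of_mod_eq
        rw [hr0, hxr]
      have e2 : (x₀ - y) % Q = 0 := by
        apply Nat.sub_mod_eq_zero_of_mod_eq
        rw [hr0, hyr]
      have f1 := Nat.div_add_mod (x₀ - x) Q
      have f2 := Nat.div_add_mod (x₀ - y) Q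
      rw [e1] at f1
      rw [e2, ← hxy] at f2
      omega
  rw [card_range] at hcard
  omega

end Pool.Agent.V5helper4.RS
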